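import Pool.Agent.Q12.MI2.Stm3
import Pool.Agent.Q251.MI2.XM

/-! Project MI2 (helper12), job FORM: lattices of coordinates of the second group basis. -/

set_option autoImplicit false

namespace Q31.MI2

open Q12.MI2 Finset Q21.MI

universe u v w w'

section aux

variable {K : Type*} [Field K] [CharP K 2]

theorem cst_zero {ι : Type*} : cst K (0 : ι → ZMod 2) = 0 := by
  funext i
  simp [cst]

theorem cst_inj {ι : Type*} {x y : ι → ZMod 2} (h : cst K x = cst K y) : x = y := by
  funext i
  have h1 := congrFun h i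
  simp only [cst] at h1
  exact (ZMod.castHom (dvd_refl 2) K).injective h1

theorem add_self_E {ι : Type*} (x : ι → K) : x + x = 0 := by
  funext i
  simp [CharTwo.add_self_eq_zero]

theorem zc (a : ZMod 2) : a = 0 ∨ a = 1 := by
  fin_cases a
  · exact Or.inl rfl
  · exact Or.inr rfl

/-- an additive function on `ι → ZMod 2` is a sum over coordinates -/
theorem add_eq_sum {ι : Type*} [Fintype ι] [DecidableEq ι] (F : (ι → ZMod 2) →+ K)
    (x : ι → ZMod 2) : F x = ∑ i, F (Pi.single i 1) * cst K x i := by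
  conv_lhs => rw [← Finset.univ_sum_single x]
  rw [map_sum]
  refine Finset.sum_congr rfl fun i _ => ?_
  rcases zc (x i) with h | h
  · simp [h, cst]
  · simp [h, cst]

/-- separation of a vector from a finite subgroup by an additive function -/
theorem sep {ι : Type*} {J : Type*} (e : J → ι → K) (v : ι → K)
    (hv : ∀ f : (ι → K) →+ ZMod 2, (∀ j, f (e j) = 0) → f v = 0) :
    v ∈ AddSubgroup.closure (Set.range e) := by
  classical
  let _ : Module (ZMod 2) (ι → K) := AddCommGroup.zmodModule (n := 2) (fun x => by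
    rw [two_nsmul]; exact add_self_E x)
  by_contra hn
  have hS : v ∉ Submodule.span (ZMod 2) (Set.range e) := by
    intro h
    apply hn
    clear hn hv
    induction h using Submodule.span_induction with
    | mem x hx => exact AddSubgroup.subset_closure hx
    | zero => exact AddSubgroup.zero_mem _
    | add x y _ _ hx hy => exact AddSubgroup.add_mem _ hx hy
    | smul a x _ hx =>
      rcases zc a with h | h
      · rw [h, zero_smul]; exact AddSubgroup.zero_mem _
      · rw [h, one_smul]; exact hx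
  obtain ⟨f, hf, hf'⟩ := Submodule.exists_dual_map_eq_bot_of_notMem hS inferInstance
  refine hf (hv f.toAddMonoidHom fun j => ?_)
  have h1 : f (e j) ∈ (Submodule.span (ZMod 2) (Set.range e)).map f :=
    Submodule.mem_map_of_mem (Submodule.subset_span ⟨j, rfl⟩)
  rw [hf'] at h1
  exact (Submodule.mem_bot _).1 h1

/-- a basis out of a spanning family, with the given index type -/
theorem exists_basis_fam {ι H : Type*} [Fintype ι] [DecidableEq ι] (X : H → ι → K)
    (hX : Submodule.span K (Set.range X) = ⊤) :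
    ∃ s : ι → H, (Matrix.of fun i j => X (s j) i).det ≠ 0 := by
  classical
  obtain ⟨b, hb1, hb2, hb3⟩ := exists_linearIndependent K (Set.range X)
  rw [hX] at hb2
  let bb : Module.Basis b K (ι → K) := Module.Basis.mk hb3 (by rw [Subtype.range_coe]; exact hb2.ge)
  let cc : Module.Basis ι K (ι → K) := Pi.basisFun K ι
  let e : b ≃ ι := bb.indexEquiv cc
  have hs : ∀ i : ι, ∃ h, X h = (e.symm i : ι → K) := fun i => hb1 (e.symm i).2
  choose s hs using hs
  refine ⟨s, ?_⟩
  let dd : Module.Basis ι K (ι → K) := bb.reindex e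
  have h1 : (Matrix.of fun i j => X (s j) i) = cc.toMatrix dd := by
    ext i j
    rw [Matrix.of_apply, Module.Basis.toMatrix_apply, Pi.basisFun_repr, hs]
    simp [dd, bb]
  rw [h1]
  have h2 : (cc.toMatrix dd).det * (dd.toMatrix cc).det = 1 := by
    rw [← Matrix.det_mul, Module.Basis.toMatrix_mul_toMatrix_flip, Matrix.det_one]
  exact left_ne_zero_of_mul_eq_one h2

theorem mulVec_inj {ι : Type*} [Fintype ι] [DecidableEq ι] {P : Matrix ι ι K} (hP : P.det ≠ 0)
    {x y : ι → K} (h : P.mulVec x = P.mulVec y) : x = y := by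
  have h1 : IsUnit P := (Matrix.isUnit_iff_isUnit_det _).2 (isUnit_iff_ne_zero.2 hP)
  exact Matrix.mulVec_injective_of_isUnit h1 h

/-- the columns of a matrix generate the image of the lattice -/
theorem closure_cols {ι : Type*} [Fintype ι] [DecidableEq ι] (P : Matrix ι ι K) (v : ι → K)
    (hv : v ∈ AddSubgroup.closure (Set.range fun j => (fun i => P i j : ι → K))) :
    ∃ x : ι → ZMod 2, v = P.mulVec (cst K x) := by
  induction hv using AddSubgroup.closure_induction with
  | mem x hx =>
    obtain ⟨j, rfl⟩ := hx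
    refine ⟨Pi.single j 1, ?_⟩
    funext i
    have : cst K (Pi.single j (1 : ZMod 2) : ι → ZMod 2) = Pi.single j 1 := by
      funext k
      by_cases hk : k = j
      · subst hk; simp [cst]
      · simp [cst, hk]
    rw [this, Matrix.mulVec_single_one]
    rfl
  | zero => exact ⟨0, by rw [cst_zero, Matrix.mulVec_zero]⟩
  | add x y _ _ hx hy =>
    obtain ⟨a, ha⟩ := hx
    obtain ⟨b, hb⟩ := hy
    exact ⟨a + b, by rw [Q251.MI2.cst_add, Matrix.mulVec_add, ha, hb]⟩
  | neg x _ hx =>
    obtain ⟨a, ha⟩ := hx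
    refine ⟨a, ?_⟩
    rw [← ha]
    exact neg_eq_of_add_eq_zero_left (add_self_E x)

/-- the image of the lattice is generated by the columns -/
theorem cols_closure {ι : Type*} [Fintype ι] [DecidableEq ι] (P : Matrix ι ι K) (x : ι → ZMod 2)
    (S : AddSubgroup (ι → K)) (hS : ∀ j, (fun i => P i j : ι → K) ∈ S) :
    P.mulVec (cst K x) ∈ S := by
  have h1 : P.mulVec (cst K x) = ∑ j, cst K x j • (fun i => P i j : ι → K) := by
    funext i
    rw [Finset.sum_apply]
    simp only [Matrix.mulVec, dotProduct, Pi.smul_apply, smul_eq_mul]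
    exact Finset.sum_congr rfl fun j _ => mul_comm _ _
  rw [h1]
  refine AddSubgroup.sum_mem _ fun j _ => ?_
  rcases zc (x j) with h | h
  · simp only [cst, h, map_zero, zero_smul]; exact S.zero_mem
  · simp only [cst, h, map_one, one_smul]; exact hS j

end aux

section bilq

variable {K : Type*} [Field K] [CharP K 2] {ι κ : Type*} [Fintype ι] (b : ι → ι → κ → ℤ)

open Q251.MI2

theorem qd_cst (x : ι → ZMod 2) : qd b (cst K x) = cst K (qd b x) := bil_cst b K x x

theorem qd_add (x y : ι → K) : qd b (x + y) = qd b x + qd b y + (bil b x y + bil b y x) := by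
  unfold qd
  rw [bil_add_left, bil_add_right, bil_add_right]
  abel

theorem qd_smul (k : K) (x : ι → K) : qd b (k • x) = (k * k) • qd b x := by
  unfold qd
  rw [bil_smul_left, bil_smul_right, smul_smul]

/-- a subspace containing the values of `qd` on a spanning additive subgroup contains all values -/
theorem qd_span (S : Set (ι → K)) (hadd : ∀ x ∈ S, ∀ y ∈ S, x + y ∈ S)
    (hS : Submodule.span K S = ⊤) (U : Submodule K (κ → K)) (hU : ∀ x ∈ S, qd b x ∈ U)
    (x : ι → K) : qd b x ∈ U := by
  have hp : ∀ x ∈ S, ∀ y ∈ S, bil b x y + bil b y x ∈ U := by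
    intro x hx y hy
    have h1 := hU _ (hadd x hx y hy)
    rw [qd_add] at h1
    have h2 := U.sub_mem h1 (U.add_mem (hU x hx) (hU y hy))
    rwa [add_sub_cancel_left] at h2
  have hp2 : ∀ x ∈ S, ∀ y : ι → K, bil b x y + bil b y x ∈ U := by
    intro x hx y
    have hy : y ∈ Submodule.span K S := by rw [hS]; trivial
    induction hy using Submodule.span_induction with
    | mem y hy => exact hp x hx y hy
    | zero => rw [bil_zero_left, bil_zero_right, add_zero]; exact U.zero_mem
    | add y z _ _ hy hz =>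
      rw [bil_add_left, bil_add_right]
      have := U.add_mem hy hz
      convert this using 1
      abel
    | smul k y _ hy =>
      rw [bil_smul_left, bil_smul_right, ← smul_add]
      exact U.smul_mem _ hy
  have hp3 : ∀ x y : ι → K, bil b x y + bil b y x ∈ U := by
    intro x y
    have hx : x ∈ Submodule.span K S := by rw [hS]; trivial
    induction hx using Submodule.span_induction with
    | mem x hx => exact hp2 x hx y
    | zero => rw [bil_zero_left, bil_zero_right, add_zero]; exact U.zero_mem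
    | add x z _ _ hx hz =>
      rw [bil_add_left, bil_add_right]
      have := U.add_mem hx hz
      convert this using 1
      abel
    | smul k x _ hx =>
      rw [bil_smul_left, bil_smul_right, ← smul_add]
      exact U.smul_mem _ hx
  have hx : x ∈ Submodule.span K S := by rw [hS]; trivial
  induction hx using Submodule.span_induction with
  | mem x hx => exact hU x hx
  | zero => unfold qd; rw [bil_zero_left]; exact U.zero_mem
  | add x y _ _ hx hy =>
    rw [qd_add]
    exact U.add_mem (U.add_mem hx hy) (hp3 x y)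
  | smul k x _ hx =>
    rw [qd_smul]
    exact U.smul_mem _ hx

end bilq

section main

variable {K : Type u} [Field K] [CharP K 2] {A : Type v} [Ring A] [Algebra K A]
  {G : Type w} [Group G] {H : Type w'} [Group H] {ι₁ ι₂ κ : Type} [Fintype ι₁]
  [DecidableEq ι₁] [Fintype ι₂] [DecidableEq ι₂] [Fintype κ] [DecidableEq κ]
  (B : GBasis K A G) (C : GBasis K A H) (c : Coord G ι₁ ι₂ κ)

/-- an additive function on `G` which takes values in `K` is a function of `ξ` -/
theorem add_fact (f : G → K) (hf : ∀ g h, f (g * h) = f g + f h) :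
    ∃ F : (ι₁ ⊕ ι₂ → ZMod 2) →+ K, ∀ g, f g = F (c.ξ g) := by
  classical
  have hf1 : f 1 = 0 := by
    have := hf 1 1
    rw [mul_one] at this
    exact (left_eq_add.1 this)
  -- the section of the kernel
  have hex : ∀ p : (ι₁ ⊕ ι₂ → ZMod 2) × (κ → ZMod 2), ∃ g, (c.ξ g, c.ψ g) = p := c.bij.2
  choose sec hsec using hex
  have hsec1 : ∀ p, c.ξ (sec p) = p.1 := fun p => congrArg Prod.fst (hsec p)
  have hsec2 : ∀ p, c.ψ (sec p) = p.2 := fun p => congrArg Prod.snd (hsec p)
  have huniq : ∀ g h, c.ξ g = c.ξ h → c.ψ g = c.ψ h → g = h := fun g h h1 h2 =>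
    c.bij.1 (Prod.ext h1 h2)
  have hb0 : ∀ y : ι₁ ⊕ ι₂ → ZMod 2, bil c.b (0 : ι₁ ⊕ ι₂ → ZMod 2) y = 0 := fun y =>
    Q251.MI2.bil_zero_left _ _
  have hb0' : ∀ y : ι₁ ⊕ ι₂ → ZMod 2, bil c.b y (0 : ι₁ ⊕ ι₂ → ZMod 2) = 0 := fun y =>
    Q251.MI2.bil_zero_right _ _
  -- additivity on the kernel
  let φ : (κ → ZMod 2) → K := fun w => f (sec (0, w))
  have hφ : ∀ w w', φ (w + w') = φ w + φ w' := by
    intro w w'
    change f (sec (0, w + w')) = _
    rw [← hf]
    congr 1
    refine huniq _ _ ?_ ?_
    · rw [c.ξ_mul, hsec1, hsec1, hsec1, add_zero]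
    · rw [c.ψ_mul, hsec1, hsec1, hsec2, hsec2, hsec2, hb0, add_zero]
  have hφq : ∀ x : ι₁ ⊕ ι₂ → ZMod 2, φ (qd c.b x) = 0 := by
    intro x
    have h1 : sec (0, qd c.b x) = sec (x, 0) * sec (x, 0) := by
      refine huniq _ _ ?_ ?_
      · rw [c.ξ_mul, hsec1, hsec1]
        funext i
        exact (CharTwo.add_self_eq_zero (x i)).symm
      · rw [c.ψ_mul, hsec1, hsec2, hsec2, add_zero, zero_add]
        rfl
    change f (sec (0, qd c.b x)) = 0
    rw [h1, hf]
    exact CharTwo.add_self_eq_zero _
  have hφ0 : φ 0 = 0 := by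
    have := hφ 0 0
    rw [add_zero] at this
    exact left_eq_add.1 this
  have hφall : ∀ w, φ w = 0 := by
    intro w
    have hw : w ∈ Submodule.span (ZMod 2)
        (Set.range (qd c.b : (ι₁ ⊕ ι₂ → ZMod 2) → κ → ZMod 2)) := by
      rw [c.span]; trivial
    induction hw using Submodule.span_induction with
    | mem x hx => obtain ⟨y, rfl⟩ := hx; exact hφq y
    | zero => exact hφ0
    | add x y _ _ hx hy => rw [hφ, hx, hy, add_zero]
    | smul a x _ hx =>
      rcases zc a with h | h
      · rw [h, zero_smul]; exact hφ0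
      · rw [h, one_smul]; exact hx
  have hker : ∀ g, c.ξ g = 0 → f g = 0 := by
    intro g hg
    have h1 : g = sec (0, c.ψ g) := huniq _ _ (by rw [hg, hsec1]) (by rw [hsec2])
    rw [h1]
    exact hφall _
  let F : (ι₁ ⊕ ι₂ → ZMod 2) →+ K :=
    { toFun := fun x => f (sec (x, 0))
      map_zero' := hker _ (hsec1 _)
      map_add' := by
        intro x y
        have h1 : c.ξ (sec (x + y, 0) * (sec (x, 0) * sec (y, 0))) = 0 := by
          rw [c.ξ_mul, c.ξ_mul, hsec1, hsec1, hsec1]
          funext i
          exact CharTwo.add_self_eq_zero (x i + y i)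
        have h2 := hker _ h1
        rw [hf, hf] at h2
        exact CharTwo.add_eq_zero.1 h2 }
  refine ⟨F, fun g => ?_⟩
  have h1 : c.ξ (g * sec (c.ξ g, 0)) = 0 := by
    rw [c.ξ_mul, hsec1]
    funext i
    exact CharTwo.add_self_eq_zero (c.ξ g i)
  have h2 := hker _ h1
  rw [hf] at h2
  exact CharTwo.add_eq_zero.1 h2

/-- an additive function on `H` with values in the prime field is the restriction of a linear
functional -/
theorem lin_fact (haug : B.aug = C.aug) (χ : H → ZMod 2) (hχ : ∀ h k, χ (h * k) = χ h + χ k) :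
    ∃ a : ι₁ ⊕ ι₂ → K, ∀ h, ZMod.castHom (dvd_refl 2) K (χ h) = ∑ i, a i * Xl B c (C.b h) i := by
  classical
  let L : A →ₗ[K] K := C.b.constr K (fun h => ZMod.castHom (dvd_refl 2) K (χ h))
  have hL : ∀ h, L (C.b h) = ZMod.castHom (dvd_refl 2) K (χ h) := fun h =>
    Module.Basis.constr_basis _ _ _ _
  have base : ∀ h k, L (C.b h * C.b k) = C.aug (C.b h) * L (C.b k) + C.aug (C.b k) * L (C.b h) := by
    intro h k
    rw [← C.mul, hL, hL, hL, GBasis.aug_b, GBasis.aug_b, one_mul, one_mul, hχ, map_add, add_comm]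
  have step : ∀ h (a' : A), L (C.b h * a') = C.aug (C.b h) * L a' + C.aug a' * L (C.b h) := by
    intro h a'
    induction C.b.mem_span a' using Submodule.span_induction with
    | mem x hx => obtain ⟨k, rfl⟩ := hx; exact base h k
    | zero => simp
    | add x y _ _ hx hy => rw [mul_add, map_add, hx, hy, map_add, map_add]; ring
    | smul k x _ hx =>
      rw [mul_smul_comm, map_smul, hx, map_smul, map_smul, smul_eq_mul, smul_eq_mul, smul_eq_mul]
      ring
  have all : ∀ a a' : A, L (a * a') = C.aug a * L a' + C.aug a' * L a := by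
    intro a a'
    induction C.b.mem_span a using Submodule.span_induction with
    | mem x hx => obtain ⟨k, rfl⟩ := hx; exact step k a'
    | zero => simp
    | add x y _ _ hx hy => rw [add_mul, map_add, hx, hy, map_add, map_add]; ring
    | smul k x _ hx =>
      rw [smul_mul_assoc, map_smul, hx, map_smul, map_smul, smul_eq_mul, smul_eq_mul, smul_eq_mul]
      ring
  obtain ⟨F, hF⟩ := add_fact (K := K) c (fun g => L (B.b g)) (by
    intro g h
    rw [B.mul, all, ← haug, GBasis.aug_b, GBasis.aug_b, one_mul, one_mul, add_comm])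
  refine ⟨fun i => F (Pi.single i 1), fun h => ?_⟩
  rw [← hL]
  have key : ∀ a : A, L a = ∑ i, F (Pi.single i 1) * Xl B c a i := by
    intro a
    induction B.b.mem_span a using Submodule.span_induction with
    | mem x hx =>
      obtain ⟨g, rfl⟩ := hx
      rw [hF, add_eq_sum F]
      have : Xl B c (B.b g) = cst K (c.ξ g) := Module.Basis.constr_basis _ _ _ _
      rw [this]
    | zero => simp
    | add x y _ _ hx hy =>
      rw [map_add, hx, hy, map_add, ← Finset.sum_add_distrib]
      exact Finset.sum_congr rfl fun i _ => by rw [Pi.add_apply]; ring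
    | smul k x _ hx =>
      rw [map_smul, hx, map_smul, smul_eq_mul, Finset.mul_sum]
      exact Finset.sum_congr rfl fun i _ => by rw [Pi.smul_apply, smul_eq_mul]; ring
  exact key _

end main

theorem form : S_FORM.{u, v, w, w'} := by
  classical
  intro K _ _ A _ _ G _ _ H _ ι₁ ι₂ κ _ _ _ _ _ _ B C c haug
  have xm := Q251.MI2.xm.{u, v, w} K A G ι₁ ι₂ κ B c
  have : Fintype G := Fintype.ofFinite G
  have : Module.Finite K A := Module.Finite.of_basis B.b
  have : Finite H := Module.Finite.finite_basis C.b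
  have : Fintype H := Fintype.ofFinite H
  have hcardGH : Fintype.card G = Fintype.card H := by
    rw [← Module.finrank_eq_card_basis B.b, Module.finrank_eq_card_basis C.b]
  have hcardG : Fintype.card G = Fintype.card (ι₁ ⊕ ι₂ → ZMod 2) * Fintype.card (κ → ZMod 2) := by
    rw [← Fintype.card_prod]
    exact Fintype.card_of_bijective c.bij
  have haugC : ∀ h, B.aug (C.b h) = 1 := fun h => by rw [haug, GBasis.aug_b]
  have hX : ∀ h k, Xl B c (C.b (h * k)) = Xl B c (C.b h) + Xl B c (C.b k) := by
    intro h k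
    rw [C.mul, (xm _ _).1, haugC, haugC, one_smul, one_smul, add_comm]
  have hP : ∀ h k, Pl B c (C.b (h * k)) = Pl B c (C.b h) + Pl B c (C.b k) +
      bil c.b (Xl B c (C.b h)) (Xl B c (C.b k)) := by
    intro h k
    rw [C.mul, (xm _ _).2, haugC, haugC, one_smul, one_smul, add_comm (Pl B c (C.b k))]
  have hXB : ∀ g, Xl B c (B.b g) = cst K (c.ξ g) := fun g => Module.Basis.constr_basis _ _ _ _
  have hX1 : Xl B c (C.b 1) = 0 := by
    have := hX 1 1
    rw [mul_one] at this
    exact left_eq_add.1 this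
  have hP1 : Pl B c (C.b 1) = 0 := by
    have := hP 1 1
    rw [mul_one, hX1, Q251.MI2.bil_zero_left, add_zero] at this
    exact left_eq_add.1 this
  -- the values span
  have hXtop : Submodule.span K (Set.range fun h => Xl B c (C.b h)) = ⊤ := by
    rw [Submodule.eq_top_iff']
    intro x
    have h1 : ∀ a : A, Xl B c a ∈ Submodule.span K (Set.range fun h => Xl B c (C.b h)) := by
      intro a
      induction C.b.mem_span a using Submodule.span_induction with
      | mem x hx => obtain ⟨k, rfl⟩ := hx; exact Submodule.subset_span ⟨k, rfl⟩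
      | zero => rw [map_zero]; exact Submodule.zero_mem _
      | add x y _ _ hx hy => rw [map_add]; exact Submodule.add_mem _ hx hy
      | smul k x _ hx => rw [map_smul]; exact Submodule.smul_mem _ _ hx
    have h2 : ∀ y : ι₁ ⊕ ι₂ → ZMod 2,
        cst K y ∈ Submodule.span K (Set.range fun h => Xl B c (C.b h)) := by
      intro y
      obtain ⟨g, hg⟩ := c.bij.2 (y, 0)
      have : c.ξ g = y := congrArg Prod.fst hg
      rw [← this, ← hXB]
      exact h1 _
    have h3 : x = ∑ i, x i • cst K (Pi.single i 1 : ι₁ ⊕ ι₂ → ZMod 2) := by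
      funext j
      rw [Finset.sum_apply]
      simp only [Pi.smul_apply, smul_eq_mul, cst]
      rw [Finset.sum_eq_single j]
      · simp
      · intro i _ hi
        simp [Pi.single_eq_of_ne (Ne.symm hi)]
      · intro h; exact absurd (Finset.mem_univ j) h
    rw [h3]
    exact Submodule.sum_mem _ fun i _ => Submodule.smul_mem _ _ (h2 _)
  obtain ⟨s, hs⟩ := exists_basis_fam (fun h => Xl B c (C.b h)) hXtop
  set P₀ : Matrix (ι₁ ⊕ ι₂) (ι₁ ⊕ ι₂) K := Matrix.of fun i j => Xl B c (C.b (s j)) i with hP₀
  -- the additive subgroup of the values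
  let S : AddSubgroup (ι₁ ⊕ ι₂ → K) :=
    { carrier := Set.range fun h => Xl B c (C.b h)
      add_mem' := by
        rintro _ _ ⟨h, rfl⟩ ⟨k, rfl⟩
        exact ⟨h * k, hX h k⟩
      zero_mem' := ⟨1, hX1⟩
      neg_mem' := by
        rintro _ ⟨h, rfl⟩
        exact ⟨h, (neg_eq_of_add_eq_zero_left (add_self_E _)).symm⟩ }
  have hone : ∀ h, ∃ x : ι₁ ⊕ ι₂ → ZMod 2, Xl B c (C.b h) = P₀.mulVec (cst K x) := by
    intro h
    refine closure_cols P₀ _ (sep (fun j => (fun i => P₀ i j : ι₁ ⊕ ι₂ → K)) _ fun f hf => ?_)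
    obtain ⟨a, ha⟩ := lin_fact B C c haug (fun h => f (Xl B c (C.b h))) (fun h k => by
      rw [hX, map_add])
    have ha0 : a = 0 := by
      have h1 : P₀.transpose.mulVec a = P₀.transpose.mulVec 0 := by
        rw [Matrix.mulVec_zero]
        funext j
        have h2 := ha (s j)
        have h3 : f (Xl B c (C.b (s j))) = 0 := hf j
        rw [h3, map_zero] at h2
        rw [Pi.zero_apply, h2]
        simp only [Matrix.mulVec, dotProduct, Matrix.transpose_apply]
        exact Finset.sum_congr rfl fun i _ => mul_comm _ _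
      exact mulVec_inj (by rwa [Matrix.det_transpose]) h1
    have h2 := ha h
    rw [ha0] at h2
    simp only [Pi.zero_apply, zero_mul, Finset.sum_const_zero] at h2
    exact (map_eq_zero_iff _ (ZMod.castHom (dvd_refl 2) K).injective).1 h2
  have htwo : ∀ x : ι₁ ⊕ ι₂ → ZMod 2, ∃ h, Xl B c (C.b h) = P₀.mulVec (cst K x) := by
    intro x
    have : P₀.mulVec (cst K x) ∈ S := cols_closure P₀ x S fun j => ⟨s j, rfl⟩
    exact this
  -- the kernel
  let N : Type w' := {h : H // Xl B c (C.b h) = 0}
  have hN : Fintype.card N = Fintype.card (κ → ZMod 2) := by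
    -- `H` is in bijection with `(ι → ZMod 2) × N`
    choose t ht using htwo
    have hinv : ∀ h : H, Xl B c (C.b h⁻¹) = Xl B c (C.b h) := by
      intro h
      have h1 := hX h h⁻¹
      rw [mul_inv_cancel, hX1] at h1
      have h2 : Xl B c (C.b h) + (Xl B c (C.b h) + Xl B c (C.b h⁻¹)) = Xl B c (C.b h) := by
        rw [← h1, add_zero]
      rwa [← add_assoc, add_self_E, zero_add] at h2
    let e : (ι₁ ⊕ ι₂ → ZMod 2) × N → H := fun p => t p.1 * p.2.1
    have he : Function.Bijective e := by
      constructor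
      · rintro ⟨x, n⟩ ⟨y, m⟩ hxy
        have h1 : t x * n.1 = t y * m.1 := hxy
        have h2 := congrArg (fun h => Xl B c (C.b h)) h1
        simp only [hX, n.2, m.2, add_zero, ht] at h2
        have h3 : x = y := cst_inj (mulVec_inj hs h2)
        subst h3
        have h4 : n = m := Subtype.ext (mul_left_cancel h1)
        rw [h4]
      · intro h
        obtain ⟨x, hx⟩ := hone h
        refine ⟨(x, ⟨(t x)⁻¹ * h, ?_⟩), mul_inv_cancel_left _ _⟩
        rw [hX, hinv, ht, hx]
        exact add_self_E _
    have h1 := Fintype.card_of_bijective he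
    rw [Fintype.card_prod, ← hcardGH, hcardG] at h1
    exact Nat.eq_of_mul_eq_mul_left Fintype.card_pos h1
  have hPN : ∀ n m : N, Pl B c (C.b (n.1 * m.1)) = Pl B c (C.b n.1) + Pl B c (C.b m.1) := by
    intro n m
    rw [hP, n.2, Q251.MI2.bil_zero_left, add_zero]
  have hsq : ∀ h : H, Xl B c (C.b (h * h)) = 0 := fun h => by rw [hX]; exact add_self_E _
  have hPsq : ∀ h : H, Pl B c (C.b (h * h)) = qd c.b (Xl B c (C.b h)) := by
    intro h
    rw [hP, add_self_E, zero_add]
    rfl
  have hPtop : Submodule.span K (Set.range fun n : N => Pl B c (C.b n.1)) = ⊤ := by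
    set U := Submodule.span K (Set.range fun n : N => Pl B c (C.b n.1)) with hU
    have h1 : ∀ x : ι₁ ⊕ ι₂ → K, qd c.b x ∈ U := by
      refine qd_span c.b (Set.range fun h => Xl B c (C.b h)) ?_ hXtop U ?_
      · rintro _ ⟨h, rfl⟩ _ ⟨k, rfl⟩
        exact ⟨h * k, hX h k⟩
      · rintro _ ⟨h, rfl⟩
        refine Submodule.subset_span ⟨⟨h * h, hsq h⟩, hPsq h⟩
    have h2 : ∀ w : κ → ZMod 2, cst K w ∈ U := by
      intro w
      have hw : w ∈ Submodule.span (ZMod 2)
          (Set.range (qd c.b : (ι₁ ⊕ ι₂ → ZMod 2) → κ → ZMod 2)) := by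
        rw [c.span]; trivial
      induction hw using Submodule.span_induction with
      | mem x hx => obtain ⟨y, rfl⟩ := hx; rw [← qd_cst]; exact h1 _
      | zero => rw [cst_zero]; exact U.zero_mem
      | add x y _ _ hx hy => rw [Q251.MI2.cst_add]; exact U.add_mem hx hy
      | smul a x _ hx =>
        rcases zc a with h | h
        · rw [h, zero_smul, cst_zero]; exact U.zero_mem
        · rw [h, one_smul]; exact hx
    rw [Submodule.eq_top_iff']
    intro x
    have h3 : x = ∑ i, x i • cst K (Pi.single i 1 : κ → ZMod 2) := by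
      funext j
      rw [Finset.sum_apply]
      simp only [Pi.smul_apply, smul_eq_mul, cst]
      rw [Finset.sum_eq_single j]
      · simp
      · intro i _ hi
        simp [Pi.single_eq_of_ne (Ne.symm hi)]
      · intro h; exact absurd (Finset.mem_univ j) h
    rw [h3]
    exact Submodule.sum_mem _ fun i _ => Submodule.smul_mem _ _ (h2 _)
  obtain ⟨r, hr⟩ := exists_basis_fam (fun n : N => Pl B c (C.b n.1)) hPtop
  set R₀ : Matrix κ κ K := Matrix.of fun i j => Pl B c (C.b (r j).1) i with hR₀
  let S' : AddSubgroup (κ → K) :=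
    { carrier := Set.range fun n : N => Pl B c (C.b n.1)
      add_mem' := by
        rintro _ _ ⟨n, rfl⟩ ⟨m, rfl⟩
        exact ⟨⟨n.1 * m.1, by rw [hX, n.2, m.2, add_zero]⟩, hPN n m⟩
      zero_mem' := ⟨⟨1, hX1⟩, hP1⟩
      neg_mem' := by
        rintro _ ⟨n, rfl⟩
        exact ⟨n, (neg_eq_of_add_eq_zero_left (add_self_E _)).symm⟩ }
  have hfour : ∀ y : κ → ZMod 2, ∃ n : N, Pl B c (C.b n.1) = R₀.mulVec (cst K y) := by
    intro y
    have : R₀.mulVec (cst K y) ∈ S' := cols_closure R₀ y S' fun j => ⟨r j, rfl⟩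
    exact this
  choose q hq using hfour
  have hqinj : Function.Injective q := by
    intro x y hxy
    have h1 : R₀.mulVec (cst K x) = R₀.mulVec (cst K y) := by rw [← hq, ← hq, hxy]
    exact cst_inj (mulVec_inj hr h1)
  have hqbij : Function.Bijective q :=
    (Fintype.bijective_iff_injective_and_card q).2 ⟨hqinj, hN.symm⟩
  refine ⟨P₀, R₀, hs, hr, hone, htwo, ?_, ?_, ?_⟩
  · intro h hh
    obtain ⟨y, hy⟩ := hqbij.2 ⟨h, hh⟩
    refine ⟨y, ?_⟩
    rw [← hq, hy]
  · intro y
    exact ⟨(q y).1, (q y).2, hq y⟩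
  · intro h hh hh'
    obtain ⟨y, hy⟩ := hqbij.2 ⟨h, hh⟩
    obtain ⟨z, hz⟩ := hqbij.2 ⟨1, hX1⟩
    have h1 : cst K y = 0 := by
      refine mulVec_inj hr ?_
      rw [← hq, hy, Matrix.mulVec_zero]
      exact hh'
    have h2 : cst K z = 0 := by
      refine mulVec_inj hr ?_
      rw [← hq, hz, Matrix.mulVec_zero]
      exact hP1
    have h3 : y = z := cst_inj (K := K) (h1.trans h2.symm)
    rw [h3, hz] at hy
    exact (congrArg Subtype.val hy).symm

end Q31.MI2
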